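import Mathlib
import Pool.Agent.Q95.GelfandHilbert

/-!
# Gelfand numbers versus Hilbert numbers for operators on a Hilbert space, without oversampling
-/

open Module Set Filter Metric
open scoped ENNReal

noncomputable section

namespace Pool.Agent.Results.MP_93c8fe_an.GelfandHilbertNumbers

universe u v

/-- Gelfand numbers `c_n(S,F)` (with values in `[0,∞]`). -/
def gelfandNumber {X : Type u} {Y : Type v} [NormedAddCommGroup X] [NormedSpace ℝ X]
    [NormedAddCommGroup Y] [NormedSpace ℝ Y] (S : X →L[ℝ] Y) (F : Set X) (n : ℕ) : ℝ≥0∞ :=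
  ⨅ L : Fin n → (X →L[ℝ] ℝ),
    ⨆ (f ∈ F) (g ∈ F) (_ : ∀ k, L k f = L k g), ENNReal.ofReal (1 / 2 * ‖S f - S g‖)

/-- The real Hilbert space `ℓ₂`. -/
abbrev ell2 : Type := lp (fun _ : ℕ => ℝ) 2

/-- Hilbert numbers `h_n(S,F)` (with values in `[0,∞]`). -/
def hilbertNumber {X : Type u} {Y : Type v} [NormedAddCommGroup X] [NormedSpace ℝ X]
    [NormedAddCommGroup Y] [NormedSpace ℝ Y] (S : X →L[ℝ] Y) (F : Set X) (n : ℕ) : ℝ≥0∞ :=
  ⨆ (B : Y →L[ℝ] ell2) (_ : ‖B‖ ≤ 1) (A : ell2 →L[ℝ] X) (x ∈ F)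
    (_ : ∀ z : ell2, ‖z‖ ≤ 1 → A z + x ∈ F),
    gelfandNumber (B ∘L S ∘L A) (closedBall (0 : ell2) 1) n

section basics

variable {X : Type u} {Y : Type v} [NormedAddCommGroup X] [NormedSpace ℝ X]
    [NormedAddCommGroup Y] [NormedSpace ℝ Y] (S : X →L[ℝ] Y)

lemma gelfand_anti (F : Set X) {n m : ℕ} (h : n ≤ m) :
    gelfandNumber S F m ≤ gelfandNumber S F n := by
  unfold gelfandNumber
  refine le_iInf fun L => ?_
  refine iInf_le_of_le (fun i : Fin m => if h' : (i : ℕ) < n then L ⟨i, h'⟩ else 0) ?_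
  refine iSup₂_mono fun f _ => iSup₂_mono fun g _ => ?_
  refine iSup_le fun hfg => ?_
  have : ∀ k, L k f = L k g := by
    intro k
    have := hfg ⟨k, by omega⟩
    simpa using this
  exact le_iSup_of_le this le_rfl

lemma gelfand_le (n : ℕ) : gelfandNumber S (closedBall (0 : X) 1) n ≤ ENNReal.ofReal ‖S‖ := by
  unfold gelfandNumber
  refine iInf_le_of_le (fun _ => 0) ?_
  refine iSup₂_le fun f hf => iSup₂_le fun g hg => iSup_le fun _ => ?_
  apply ENNReal.ofReal_le_ofReal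
  rw [mem_closedBall_zero_iff] at hf hg
  have h1 : ‖S f‖ ≤ ‖S‖ := (S.le_opNorm f).trans (mul_le_of_le_one_right (norm_nonneg _) hf)
  have h2 : ‖S g‖ ≤ ‖S‖ := (S.le_opNorm g).trans (mul_le_of_le_one_right (norm_nonneg _) hg)
  have h3 := norm_sub_le (S f) (S g)
  linarith

lemma gelfand_ne_top (n : ℕ) : gelfandNumber S (closedBall (0 : X) 1) n ≠ ⊤ :=
  ne_top_of_le_ne_top ENNReal.ofReal_ne_top (gelfand_le S n)

/-- Good functionals: the supremum is almost the infimum. -/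
lemma exists_functionals (n : ℕ) {s : ℝ}
    (hs : gelfandNumber S (closedBall (0 : X) 1) n < ENNReal.ofReal s) :
    ∃ L : Fin n → (X →L[ℝ] ℝ), ∀ f : X, ‖f‖ ≤ 1 → (∀ i, L i f = 0) → ‖S f‖ ≤ s := by
  have hs0 : 0 < s := by
    by_contra h
    rw [ENNReal.ofReal_of_nonpos (not_lt.mp h)] at hs
    exact absurd hs (not_lt.mpr (zero_le))
  unfold gelfandNumber at hs
  obtain ⟨L, hL⟩ := iInf_lt_iff.mp hs
  refine ⟨L, fun f hf hLf => ?_⟩
  have h1 : ENNReal.ofReal (1 / 2 * ‖S f - S (-f)‖) ≤ ENNReal.ofReal s := by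
    refine le_trans ?_ hL.le
    refine le_iSup₂_of_le f (mem_closedBall_zero_iff.mpr hf) ?_
    refine le_iSup₂_of_le (-f) (mem_closedBall_zero_iff.mpr (by rwa [norm_neg])) ?_
    refine le_iSup_of_le (fun k => ?_) le_rfl
    rw [map_neg, hLf k, neg_zero]
  rw [ENNReal.ofReal_le_ofReal_iff hs0.le, map_neg, sub_neg_eq_add, ← two_smul ℝ, norm_smul] at h1
  norm_num at h1
  linarith

/-- Points with large image in the common kernel of few functionals. -/
lemma exists_point (n : ℕ) {s : ℝ} (hs : ENNReal.ofReal s < gelfandNumber S (closedBall (0 : X) 1) n)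
    (hs0 : 0 ≤ s) (L : Fin n → (X →L[ℝ] ℝ)) :
    ∃ f : X, ‖f‖ ≤ 1 ∧ (∀ i, L i f = 0) ∧ s ≤ ‖S f‖ := by
  unfold gelfandNumber at hs
  have h1 := lt_of_lt_of_le hs (iInf_le _ L)
  simp only [lt_iSup_iff] at h1
  obtain ⟨f, hf, g, hg, hfg, h2⟩ := h1
  rw [mem_closedBall_zero_iff] at hf hg
  refine ⟨(1 / 2 : ℝ) • (f - g), ?_, fun i => ?_, ?_⟩
  · rw [norm_smul]
    have := norm_sub_le f g
    norm_num
    linarith
  · rw [map_smul, map_sub, hfg i, sub_self, smul_zero]
  · rw [map_smul, norm_smul, map_sub]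
    have := (ENNReal.ofReal_lt_ofReal_iff_of_nonneg hs0).mp h2
    norm_num
    linarith

end basics

/-! ### The embedding of `ℝⁿ` into `ℓ₂` -/

open Q95.GH

lemma exists_embedding (n : ℕ) : ∃ (J : H n →ₗᵢ[ℝ] ell2) (P : ell2 →L[ℝ] H n),
    ‖P‖ ≤ 1 ∧ ∀ x, P (J x) = x := by
  classical
  let hb : HilbertBasis ℕ ℝ ell2 := HilbertBasis.ofRepr (LinearIsometryEquiv.refl ℝ _)
  have hon : Orthonormal ℝ (fun i : Fin n => hb i) :=
    hb.orthonormal.comp _ Fin.val_injective
  let g : H n →ₗ[ℝ] ell2 := (stdB n).toBasis.constr ℝ (fun i : Fin n => hb i)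
  have hg : g ∘ (stdB n).toBasis = fun i : Fin n => hb i := by
    funext i
    simp only [Function.comp]
    exact (stdB n).toBasis.constr_basis ℝ _ i
  let J : H n →ₗᵢ[ℝ] ell2 := g.isometryOfOrthonormal (v := (stdB n).toBasis)
    (by rw [OrthonormalBasis.coe_toBasis]; exact (stdB n).orthonormal) (by rw [hg]; exact hon)
  refine ⟨J, ContinuousLinearMap.adjoint J.toContinuousLinearMap, ?_, fun x => ?_⟩
  · rw [LinearIsometryEquiv.norm_map]
    exact J.norm_toContinuousLinearMap_le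
  · apply ext_inner_right ℝ
    intro y
    rw [ContinuousLinearMap.adjoint_inner_left]
    exact J.inner_map_map x y

section main

variable {X : Type u} {Y : Type v} [NormedAddCommGroup X] [InnerProductSpace ℝ X]
    [NormedAddCommGroup Y] [NormedSpace ℝ Y] (S : X →L[ℝ] Y)

/-- `|det(B₀ S A₀)|` is at most the product of the Hilbert numbers. -/
lemma det_le_prod {n : ℕ} (A₀ : H n →ₗᵢ[ℝ] X) (B₀ : Y →L[ℝ] H n) (hB : ‖B₀‖ ≤ 1) :
    ENNReal.ofReal |LinearMap.det ((B₀ : Y →ₗ[ℝ] H n) ∘ₗ (S : X →ₗ[ℝ] Y) ∘ₗ A₀.toLinearMap)| ≤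
      ∏ k ∈ Finset.range n, hilbertNumber S (closedBall (0 : X) 1) k := by
  obtain ⟨J, P, hP, hPJ⟩ := exists_embedding n
  set A : ell2 →L[ℝ] X := A₀.toContinuousLinearMap ∘L P with hA
  set B : Y →L[ℝ] ell2 := J.toContinuousLinearMap ∘L B₀ with hBdef
  set T : ell2 →L[ℝ] ell2 := B ∘L S ∘L A with hT
  set V : H n →ₗ[ℝ] H n := (B₀ : Y →ₗ[ℝ] H n) ∘ₗ (S : X →ₗ[ℝ] Y) ∘ₗ A₀.toLinearMap with hV
  have hBn : ‖B‖ ≤ 1 := by
    refine (ContinuousLinearMap.opNorm_comp_le _ _).trans ?_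
    exact mul_le_one₀ J.norm_toContinuousLinearMap_le (norm_nonneg _) hB
  have hAb : ∀ z : ell2, ‖z‖ ≤ 1 → A z + 0 ∈ closedBall (0 : X) 1 := by
    intro z hz
    rw [add_zero, mem_closedBall_zero_iff]
    have h1 : ‖A z‖ = ‖P z‖ := A₀.norm_map _
    rw [h1]
    refine (P.le_opNorm z).trans ?_
    exact mul_le_one₀ hP (norm_nonneg _) hz
  set G : ℕ → ℝ≥0∞ := fun k => gelfandNumber T (closedBall (0 : ell2) 1) k with hG
  have hGh : ∀ k, G k ≤ hilbertNumber S (closedBall (0 : X) 1) k := by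
    intro k
    unfold hilbertNumber
    refine le_iSup₂_of_le B hBn ?_
    refine le_iSup_of_le A ?_
    refine le_iSup₂_of_le 0 (mem_closedBall_self zero_le_one) ?_
    exact le_iSup_of_le hAb le_rfl
  have hGt : ∀ k, G k ≠ ⊤ := fun k => gelfand_ne_top T k
  have hVT : ∀ f : H n, ‖V f‖ = ‖T (J f)‖ := by
    intro f
    have h1 : T (J f) = J (B₀ (S (A₀ (P (J f))))) := rfl
    rw [h1, J.norm_map, hPJ]
    rfl
  have key : ∀ δ : ℝ, 0 < δ → |LinearMap.det V| ≤ ∏ k ∈ Finset.range n, ((G k).toReal + δ) := by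
    intro δ hδ
    have h1 : ∀ k, ∃ L : Fin k → (ell2 →L[ℝ] ℝ), ∀ f : ell2, ‖f‖ ≤ 1 → (∀ i, L i f = 0) →
        ‖T f‖ ≤ (G k).toReal + δ := by
      intro k
      apply exists_functionals T k
      have h3 : G k = ENNReal.ofReal (G k).toReal := (ENNReal.ofReal_toReal (hGt k)).symm
      have h4 : ENNReal.ofReal (G k).toReal < ENNReal.ofReal ((G k).toReal + δ) := by
        rw [ENNReal.ofReal_lt_ofReal_iff (by have := ENNReal.toReal_nonneg (a := G k); linarith)]
        linarith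
      exact h3.trans_lt h4
    choose L hL using h1
    apply abs_det_le V (fun k i => (L k i : ell2 →ₗ[ℝ] ℝ) ∘ₗ J.toLinearMap)
    intro k _ f hf hLf
    rw [hVT]
    exact hL k (J f) (by rwa [J.norm_map]) hLf
  have h2 : |LinearMap.det V| ≤ ∏ k ∈ Finset.range n, (G k).toReal := by
    have hc : Tendsto (fun δ : ℝ => ∏ k ∈ Finset.range n, ((G k).toReal + δ))
        (nhdsWithin 0 (Ioi 0)) (nhds (∏ k ∈ Finset.range n, ((G k).toReal + 0))) := by
      apply tendsto_nhdsWithin_of_tendsto_nhds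
      have : Continuous (fun δ : ℝ => ∏ k ∈ Finset.range n, ((G k).toReal + δ)) := by fun_prop
      exact this.tendsto 0
    simp only [add_zero] at hc
    exact ge_of_tendsto hc (eventually_nhdsWithin_of_forall fun δ hδ => key δ hδ)
  calc ENNReal.ofReal |LinearMap.det V|
      ≤ ENNReal.ofReal (∏ k ∈ Finset.range n, (G k).toReal) := ENNReal.ofReal_le_ofReal h2
    _ = ∏ k ∈ Finset.range n, G k := by
        rw [ENNReal.ofReal_prod_of_nonneg fun k _ => ENNReal.toReal_nonneg]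
        apply Finset.prod_congr rfl
        intro k _
        exact ENNReal.ofReal_toReal (hGt k)
    _ ≤ _ := Finset.prod_le_prod' fun k _ => hGh k

/-- Choice of the points and functionals. -/
lemma exists_seq {n : ℕ} (c : ℕ → ℝ) (hc0 : ∀ k < n, 0 < c k)
    (hc : ∀ k < n, ENNReal.ofReal (c k) < gelfandNumber S (closedBall (0 : X) 1) k) :
    ∀ m ≤ n, ∃ (f : ℕ → X) (y : ℕ → (Y →L[ℝ] ℝ)), ∀ k < m, ‖f k‖ ≤ 1 ∧ ‖y k‖ ≤ 1 ∧
      c k ≤ y k (S (f k)) ∧ ∀ j < k, y j (S (f k)) = 0 := by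
  intro m
  induction m with
  | zero => intro _; exact ⟨fun _ => 0, fun _ => 0, fun k hk => absurd hk (Nat.not_lt_zero k)⟩
  | succ m ih =>
    intro hm
    obtain ⟨f, y, h⟩ := ih (by omega)
    obtain ⟨p, hp1, hp2, hp3⟩ := exists_point S m (hc m (by omega)) (hc0 m (by omega)).le
      (fun i : Fin m => (y i) ∘L S)
    obtain ⟨z, hz1, hz2⟩ := exists_dual_vector'' ℝ (S p)
    refine ⟨Function.update f m p, Function.update y m z, fun k hk => ?_⟩
    rcases Nat.lt_succ_iff_lt_or_eq.mp hk with h' | h'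
    · rw [Function.update_of_ne (by omega), Function.update_of_ne (by omega)]
      refine ⟨(h k h').1, (h k h').2.1, (h k h').2.2.1, fun j hj => ?_⟩
      rw [Function.update_of_ne (by omega)]
      exact (h k h').2.2.2 j hj
    · subst h'
      rw [Function.update_self, Function.update_self]
      refine ⟨hp1, hz1, ?_, fun j hj => ?_⟩
      · rw [hz2]
        exact hp3
      · rw [Function.update_of_ne (by omega)]
        exact hp2 ⟨j, hj⟩

/-- The product form of the inequality. -/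
theorem prod_gelfand_le (n : ℕ) :
    ∏ k ∈ Finset.range n, gelfandNumber S (closedBall (0 : X) 1) k ≤
      ENNReal.ofReal √n ^ n * ∏ k ∈ Finset.range n, hilbertNumber S (closedBall (0 : X) 1) k := by
  set g : ℕ → ℝ≥0∞ := fun k => gelfandNumber S (closedBall (0 : X) 1) k with hg
  by_cases h0 : ∃ k ∈ Finset.range n, g k = 0
  · obtain ⟨k, hk, hk0⟩ := h0
    rw [Finset.prod_eq_zero hk hk0]
    exact zero_le
  push Not at h0
  have hgt : ∀ k, g k ≠ ⊤ := fun k => gelfand_ne_top S k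
  have hpos : ∀ k < n, 0 < (g k).toReal := fun k hk =>
    ENNReal.toReal_pos (h0 k (Finset.mem_range.mpr hk)) (hgt k)
  have key : ∀ θ : ℝ, 0 < θ → θ < 1 →
      ENNReal.ofReal (∏ k ∈ Finset.range n, (θ * (g k).toReal)) ≤
      ENNReal.ofReal √n ^ n * ∏ k ∈ Finset.range n, hilbertNumber S (closedBall (0 : X) 1) k := by
    intro θ h1 h2
    obtain ⟨f, y, hfy⟩ := exists_seq S (n := n) (fun k => θ * (g k).toReal)
      (fun k hk => mul_pos h1 (hpos k hk)) (fun k hk => by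
        have h3 : ENNReal.ofReal (g k).toReal = g k := ENNReal.ofReal_toReal (hgt k)
        change ENNReal.ofReal (θ * (g k).toReal) < g k
        rw [← h3, ENNReal.toReal_ofReal ENNReal.toReal_nonneg,
          ENNReal.ofReal_lt_ofReal_iff (hpos k hk)]
        have := hpos k hk
        nlinarith) n le_rfl
    obtain ⟨A, hA⟩ := det_lower S (fun k : Fin n => f k) (fun k : Fin n => y k)
      (fun k : Fin n => θ * (g k).toReal) (fun k => (hfy k k.2).1)
      (fun k => mul_pos h1 (hpos k k.2)) (fun k => (hfy k k.2).2.2.1)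
      (fun j k hjk => (hfy k k.2).2.2.2 j hjk)
    rw [Finset.prod_range]
    refine (ENNReal.ofReal_le_ofReal hA).trans ?_
    rw [ENNReal.ofReal_mul (by positivity), ENNReal.ofReal_pow (Real.sqrt_nonneg _)]
    gcongr
    exact det_le_prod S A (Bmap fun k : Fin n => y k) (Bmap_norm_le _ fun j => (hfy j j.2).2.1)
  have hc : Tendsto (fun θ : ℝ => ENNReal.ofReal (∏ k ∈ Finset.range n, (θ * (g k).toReal)))
      (nhdsWithin 1 (Iio 1)) (nhds (ENNReal.ofReal (∏ k ∈ Finset.range n, (1 * (g k).toReal)))) := by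
    apply tendsto_nhdsWithin_of_tendsto_nhds
    have : Continuous (fun θ : ℝ => ENNReal.ofReal
        (∏ k ∈ Finset.range n, (θ * (g k).toReal))) :=
      ENNReal.continuous_ofReal.comp (by fun_prop)
    exact this.tendsto 1
  have h3 : ENNReal.ofReal (∏ k ∈ Finset.range n, (1 * (g k).toReal)) =
      ∏ k ∈ Finset.range n, g k := by
    simp only [one_mul]
    rw [ENNReal.ofReal_prod_of_nonneg fun k _ => ENNReal.toReal_nonneg]
    apply Finset.prod_congr rfl
    intro k _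
    exact ENNReal.ofReal_toReal (hgt k)
  rw [h3] at hc
  refine le_of_tendsto hc ?_
  filter_upwards [Ioo_mem_nhdsLT (zero_lt_one' ℝ)] with θ hθ
  exact key θ hθ.1 hθ.2

end main

/-- For every Hilbert space `X`, Banach space `Y`, bounded linear `S : X → Y` and `n ≥ 1`,
`c_{n-1}(S,B_X) ≤ n^{1/2} (∏_{k<n} h_k(S,B_X))^{1/n}`; in fact even
`∏_{k<n} c_k(S,B_X) ≤ n^{n/2} ∏_{k<n} h_k(S,B_X)`. -/
theorem result (X : Type u) [NormedAddCommGroup X] [InnerProductSpace ℝ X] [CompleteSpace X]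
    (Y : Type v) [NormedAddCommGroup Y] [NormedSpace ℝ Y] [CompleteSpace Y] (S : X →L[ℝ] Y)
    (n : ℕ) (hn : 1 ≤ n) :
    gelfandNumber S (closedBall (0 : X) 1) (n - 1) ≤
      (n : ℝ≥0∞) ^ (1 / 2 : ℝ) *
        (∏ k ∈ Finset.range n, hilbertNumber S (closedBall (0 : X) 1) k) ^ (1 / n : ℝ) ∧
    ∏ k ∈ Finset.range n, gelfandNumber S (closedBall (0 : X) 1) k ≤
      (n : ℝ≥0∞) ^ (n / 2 : ℝ) *
        ∏ k ∈ Finset.range n, hilbertNumber S (closedBall (0 : X) 1) k := by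
  have h1 := prod_gelfand_le S n
  have h2 : ENNReal.ofReal √n = (n : ℝ≥0∞) ^ (1 / 2 : ℝ) := by
    rw [Real.sqrt_eq_rpow, ← ENNReal.ofReal_rpow_of_nonneg (Nat.cast_nonneg n) (by norm_num),
      ENNReal.ofReal_natCast]
  have hn0 : (n : ℝ) ≠ 0 := by positivity
  refine ⟨?_, ?_⟩
  · have h3 : gelfandNumber S (closedBall (0 : X) 1) (n - 1) ^ n ≤
        ∏ k ∈ Finset.range n, gelfandNumber S (closedBall (0 : X) 1) k := by
      have : ∏ _k ∈ Finset.range n, gelfandNumber S (closedBall (0 : X) 1) (n - 1) ≤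
          ∏ k ∈ Finset.range n, gelfandNumber S (closedBall (0 : X) 1) k :=
        Finset.prod_le_prod' fun k hk => gelfand_anti S _ (by
          have := Finset.mem_range.mp hk
          omega)
      simpa using this
    have h4 := h3.trans h1
    have h5 := ENNReal.rpow_le_rpow h4 (by positivity : (0 : ℝ) ≤ 1 / n)
    rw [ENNReal.mul_rpow_of_nonneg _ _ (by positivity), ← ENNReal.rpow_natCast,
      ← ENNReal.rpow_natCast, ← ENNReal.rpow_mul, ← ENNReal.rpow_mul, mul_one_div_cancel hn0,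
      ENNReal.rpow_one, ENNReal.rpow_one, h2] at h5
    exact h5
  · refine h1.trans (le_of_eq ?_)
    rw [h2, ← ENNReal.rpow_natCast, ← ENNReal.rpow_mul]
    congr 2
    ring

end Pool.Agent.Results.MP_93c8fe_an.GelfandHilbertNumbers
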